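import Mathlib

/-! Moments of centred Gaussian measures up to order four. -/

set_option autoImplicit false

open MeasureTheory ProbabilityTheory
open scoped NNReal ENNReal

namespace H32.FL

theorem gm_int (v : ℝ≥0) (n : ℕ) : Integrable (fun x : ℝ => x ^ n) (gaussianReal 0 v) := by
  have h := integrable_pow_of_mem_interior_integrableExpSet (X := id) (μ := gaussianReal 0 v)
    (by simp) n
  simpa using h

theorem gm_mgf (v : ℝ≥0) (n : ℕ) : ∫ x, x ^ n ∂(gaussianReal 0 v) =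
    iteratedDeriv n (fun t : ℝ => Real.exp (v * t ^ 2 / 2)) 0 := by
  have h := iteratedDeriv_mgf_zero (X := id) (μ := gaussianReal 0 v) (by simp) n
  rw [mgf_id_gaussianReal] at h
  simp only [zero_mul, zero_add] at h
  rw [h]
  rfl

theorem gm_d (a : ℝ) (p : ℝ → ℝ) (p' : ℝ → ℝ) (hp : ∀ t, HasDerivAt p (p' t) t) :
    deriv (fun t : ℝ => p t * Real.exp (a * t ^ 2 / 2)) =
      fun t => (p' t + p t * (a * t)) * Real.exp (a * t ^ 2 / 2) := by
  funext t
  have h1 : HasDerivAt (fun t : ℝ => a * t ^ 2 / 2) (a * t) t := by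
    have h0 : HasDerivAt (fun t : ℝ => a * t ^ 2 / 2) (a * (((2 : ℕ) : ℝ) * t ^ (2 - 1)) / 2) t :=
      ((hasDerivAt_pow 2 t).const_mul a).div_const 2
    have e : a * (((2 : ℕ) : ℝ) * t ^ (2 - 1)) / 2 = a * t := by
      norm_num; ring
    rwa [e] at h0
  have h2 := (hp t).mul h1.exp
  have h3 : deriv (fun t : ℝ => p t * Real.exp (a * t ^ 2 / 2)) t = _ := h2.deriv
  rw [h3]; ring

theorem gm_all (v : ℝ≥0) : (∫ x, x ^ 1 ∂(gaussianReal 0 v) = 0) ∧
    (∫ x, x ^ 2 ∂(gaussianReal 0 v) = v) ∧ (∫ x, x ^ 3 ∂(gaussianReal 0 v) = 0) ∧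
    (∫ x, x ^ 4 ∂(gaussianReal 0 v) = 3 * v ^ 2) := by
  set a : ℝ := (v : ℝ) with ha
  have e0 : (fun t : ℝ => Real.exp (a * t ^ 2 / 2)) =
      fun t => (fun _ : ℝ => (1 : ℝ)) t * Real.exp (a * t ^ 2 / 2) := by
    funext t; simp
  have i1 : iteratedDeriv 1 (fun t : ℝ => Real.exp (a * t ^ 2 / 2)) =
      fun t => (a * t) * Real.exp (a * t ^ 2 / 2) := by
    rw [iteratedDeriv_one, e0, gm_d a (fun _ => 1) (fun _ => 0) (fun t => hasDerivAt_const t _)]
    funext t; ring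
  have i2 : iteratedDeriv 2 (fun t : ℝ => Real.exp (a * t ^ 2 / 2)) =
      fun t => (a + a ^ 2 * t ^ 2) * Real.exp (a * t ^ 2 / 2) := by
    rw [iteratedDeriv_succ, i1, gm_d a (fun t => a * t) (fun _ => a) (fun t => by
      simpa using (hasDerivAt_id t).const_mul a)]
    funext t; ring
  have i3 : iteratedDeriv 3 (fun t : ℝ => Real.exp (a * t ^ 2 / 2)) =
      fun t => (3 * a ^ 2 * t + a ^ 3 * t ^ 3) * Real.exp (a * t ^ 2 / 2) := by
    rw [iteratedDeriv_succ, i2, gm_d a (fun t => a + a ^ 2 * t ^ 2) (fun t => a ^ 2 * (2 * t))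
      (fun t => by
        have := ((hasDerivAt_pow 2 t).const_mul (a ^ 2)).const_add a
        simpa using this)]
    funext t; ring
  have i4 : iteratedDeriv 4 (fun t : ℝ => Real.exp (a * t ^ 2 / 2)) =
      fun t => (3 * a ^ 2 + 6 * a ^ 3 * t ^ 2 + a ^ 4 * t ^ 4) * Real.exp (a * t ^ 2 / 2) := by
    rw [iteratedDeriv_succ, i3, gm_d a (fun t => 3 * a ^ 2 * t + a ^ 3 * t ^ 3)
      (fun t => 3 * a ^ 2 + a ^ 3 * (3 * t ^ 2))
      (fun t => by
        have h1 := (hasDerivAt_id t).const_mul (3 * a ^ 2)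
        have h2 := (hasDerivAt_pow 3 t).const_mul (a ^ 3)
        have h3 : HasDerivAt (fun t => 3 * a ^ 2 * t + a ^ 3 * t ^ 3) _ t := h1.add h2
        simpa using h3)]
    funext t; ring
  refine ⟨?_, ?_, ?_, ?_⟩
  · rw [gm_mgf, i1]; simp
  · rw [gm_mgf, i2]; simp
  · rw [gm_mgf, i3]; simp
  · rw [gm_mgf, i4]; simp

end H32.FL
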