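import Pool.Agent.H32.FL.TR

/-! Part SI1 of crew FL: simple integrals against a Brownian motion. -/

set_option autoImplicit false

open MeasureTheory ProbabilityTheory Filter Topology
open scoped NNReal ENNReal

universe u

namespace H32.FL

open H5.FL

/-- clamped times -/
noncomputable def cc (p : ℕ → ℝ≥0) (s t : ℝ≥0) (k : ℕ) : ℝ≥0 := max (min (p k) t) s

theorem cc_mono {p : ℕ → ℝ≥0} (hp : Monotone p) (s t : ℝ≥0) : Monotone (cc p s t) :=
  fun _ _ h => max_le_max (min_le_min (hp h) le_rfl) le_rfl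

theorem cc_ge (p : ℕ → ℝ≥0) (s t : ℝ≥0) (k : ℕ) : s ≤ cc p s t k := le_max_right _ _

theorem cc_le (p : ℕ → ℝ≥0) {s t : ℝ≥0} (h : s ≤ t) (k : ℕ) : cc p s t k ≤ t :=
  max_le (min_le_right _ _) h

theorem clamp {Ω : Type u} (W : ℝ≥0 → Ω → ℝ) {s t : ℝ≥0} (h : s ≤ t) (p : ℝ≥0) (ω : Ω) :
    W (min p t) ω - W (min p s) ω = W (max (min p t) s) ω - W s ω := by
  rcases le_total p s with h1 | h1
  · rw [min_eq_left (h1.trans h), min_eq_left h1, max_eq_right h1, sub_self, sub_self]
  · rw [min_eq_right h1, max_eq_left (le_min h1 h)]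

/-- if `c k < p k` then the clamped interval is trivial -/
theorem cc_triv {p : ℕ → ℝ≥0} (hp : Monotone p) {s t : ℝ≥0} (h : s ≤ t) {k : ℕ}
    (hk : cc p s t k < p k) : cc p s t k = cc p s t (k + 1) := by
  have h1 : min (p k) t ≤ cc p s t k := le_max_left _ _
  have h2 : t < p k := by
    by_contra h3
    rw [not_lt] at h3
    rw [min_eq_left h3] at h1
    exact absurd hk (not_lt.2 h1)
  have h3 : t ≤ p (k + 1) := h2.le.trans (hp (Nat.le_succ k))
  unfold cc
  rw [min_eq_right h2.le, min_eq_right h3]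

variable {N : ℕ} {Ω : Type u} [mΩ : MeasurableSpace Ω] {F : Filtration ℝ≥0 mΩ}

open Classical in
/-- modified coefficients -/
noncomputable def bb (S : Simple N F) (s t : ℝ≥0) (j : Fin N) (k : ℕ) (ω : Ω) : ℝ :=
  if S.p k ≤ cc S.p s t k then S.a k ω j else 0

theorem bb_meas (S : Simple N F) (s t : ℝ≥0) (j : Fin N) (k : ℕ) :
    Measurable[F (cc S.p s t k)] (bb S s t j k) := by
  by_cases h : S.p k ≤ cc S.p s t k
  · have e : bb S s t j k = fun ω => S.a k ω j := by funext ω; simp [bb, h]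
    rw [e]
    have h1 : Measurable[F (cc S.p s t k)] (S.a k) := (S.a_meas k).mono (F.mono h) le_rfl
    exact (measurable_pi_apply j).comp h1
  · have e : bb S s t j k = fun _ => 0 := by funext ω; simp [bb, h]
    rw [e]
    exact measurable_const

theorem bb_le (S : Simple N F) (s t : ℝ≥0) (j : Fin N) (k : ℕ) (ω : Ω) :
    |bb S s t j k ω| ≤ 1 := by
  unfold bb
  split_ifs
  · exact S.a_le k ω j
  · simp

theorem int_eq_mm (S : Simple N F) (W : ℝ≥0 → Ω → ℝ) {s t : ℝ≥0} (h : s ≤ t) (j : Fin N) (ω : Ω) :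
    S.int W t ω j - S.int W s ω j = mm W (cc S.p s t) (bb S s t j) S.m ω := by
  unfold Simple.int mm
  rw [← Finset.sum_sub_distrib]
  refine Finset.sum_congr rfl fun k _ => ?_
  have h1 := clamp W h (S.p k) ω
  have h2 := clamp W h (S.p (k + 1)) ω
  have h3 : S.a k ω j * (W (min (S.p (k + 1)) t) ω - W (min (S.p k) t) ω) -
      S.a k ω j * (W (min (S.p (k + 1)) s) ω - W (min (S.p k) s) ω) =
      S.a k ω j * (W (cc S.p s t (k + 1)) ω - W (cc S.p s t k) ω) := by
    unfold cc
    linear_combination S.a k ω j * h2 - S.a k ω j * h1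
  rw [h3]
  by_cases hk : S.p k ≤ cc S.p s t k
  · simp [bb, hk]
  · rw [← cc_triv S.p_mono h (not_le.1 hk)]
    simp

theorem val_mul (S : Simple N F) (r : ℝ≥0) (ω : Ω) (i j : Fin N) :
    S.val r ω i * S.val r ω j =
      ∑ k ∈ Finset.range S.m, if S.p k < r ∧ r ≤ S.p (k + 1) then S.a k ω i * S.a k ω j else 0 := by
  unfold Simple.val
  rw [Finset.sum_mul_sum]
  refine Finset.sum_congr rfl fun k hk => ?_
  rw [Finset.sum_eq_single k]
  · by_cases h : S.p k < r ∧ r ≤ S.p (k + 1)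
    · rw [if_pos h, if_pos h, if_pos h]
    · rw [if_neg h, if_neg h, if_neg h]; ring
  · intro l _ hl
    by_cases h : S.p k < r ∧ r ≤ S.p (k + 1)
    · by_cases h' : S.p l < r ∧ r ≤ S.p (l + 1)
      · exfalso
        rcases lt_or_gt_of_ne hl with h1 | h1
        · have : S.p (l + 1) ≤ S.p k := S.p_mono (Nat.succ_le_of_lt h1)
          exact absurd (h'.2.trans this) (not_le.2 h.1)
        · have : S.p (k + 1) ≤ S.p l := S.p_mono (Nat.succ_le_of_lt h1)
          exact absurd (h.2.trans this) (not_le.2 h'.1)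
      · rw [if_neg h', mul_zero]
    · rw [if_neg h, zero_mul]
  · intro h; exact absurd hk h

theorem int_ind {p q s t : ℝ≥0} (hpq : p ≤ q) (h : s ≤ t) (A : ℝ) :
    IntervalIntegrable (fun r : ℝ => if p < r.toNNReal ∧ r.toNNReal ≤ q then A else 0) volume s t ∧
    ∫ r in (s : ℝ)..t, (if p < r.toNNReal ∧ r.toNNReal ≤ q then A else 0) =
      A * (((max (min q t) s : ℝ≥0) : ℝ) - (max (min p t) s : ℝ≥0)) := by
  have hst : (s : ℝ) ≤ t := NNReal.coe_le_coe.2 h
  have hcongr : ∀ r : ℝ, (s : ℝ) < r →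
      (if p < r.toNNReal ∧ r.toNNReal ≤ q then A else 0) =
      (Set.Ioc (p : ℝ) q).indicator (fun _ => A) r := by
    intro r hr
    have hr0 : 0 ≤ r := (NNReal.coe_nonneg s).trans hr.le
    have h1 : (p < r.toNNReal ∧ r.toNNReal ≤ q) ↔ r ∈ Set.Ioc (p : ℝ) q := by
      rw [Set.mem_Ioc, ← NNReal.coe_lt_coe, ← NNReal.coe_le_coe, Real.coe_toNNReal r hr0]
    by_cases h2 : p < r.toNNReal ∧ r.toNNReal ≤ q
    · rw [if_pos h2, Set.indicator_of_mem (h1.1 h2)]
    · rw [if_neg h2, Set.indicator_of_notMem (fun h3 => h2 (h1.2 h3))]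
  have hind : IntegrableOn ((Set.Ioc (p : ℝ) q).indicator (fun _ => A)) (Set.Ioc (s : ℝ) t) :=
    ((integrableOn_const (by simp) (by simp)).indicator measurableSet_Ioc)
  constructor
  · rw [intervalIntegrable_iff_integrableOn_Ioc_of_le hst]
    exact hind.congr_fun (fun r hr => (hcongr r hr.1).symm) measurableSet_Ioc
  · rw [intervalIntegral.integral_of_le hst,
      setIntegral_congr_fun measurableSet_Ioc (fun r hr => hcongr r hr.1),
      setIntegral_indicator measurableSet_Ioc, setIntegral_const, Set.Ioc_inter_Ioc, smul_eq_mul,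
      mul_comm]
    congr 1
    rw [measureReal_def, Real.volume_Ioc]
    have e1 : ((max (min q t) s : ℝ≥0) : ℝ) = max (min (q : ℝ) t) s := by push_cast; rfl
    have e2 : ((max (min p t) s : ℝ≥0) : ℝ) = max (min (p : ℝ) t) s := by push_cast; rfl
    rw [e1, e2]
    have hpq' : (p : ℝ) ≤ q := NNReal.coe_le_coe.2 hpq
    have key : max (min (q : ℝ) t) s - max (min (p : ℝ) t) s = max (min (t : ℝ) q - max (s : ℝ) p) 0 := by
      simp only [max_def, min_def]
      split_ifs <;> linarith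
    rw [key, ENNReal.toReal_ofReal']

theorem val_int (S : Simple N F) {s t : ℝ≥0} (h : s ≤ t) (ω : Ω) (i j : Fin N) :
    ∫ r in (s : ℝ)..t, S.val r.toNNReal ω i * S.val r.toNNReal ω j =
      ∑ k ∈ Finset.range S.m, bb S s t i k ω * bb S s t j k ω *
        ((cc S.p s t (k + 1) : ℝ) - cc S.p s t k) := by
  simp only [val_mul]
  rw [intervalIntegral.integral_finsetSum (fun k _ => (int_ind (S.p_mono (Nat.le_succ k)) h _).1)]
  refine Finset.sum_congr rfl fun k _ => ?_
  rw [(int_ind (S.p_mono (Nat.le_succ k)) h _).2]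
  show S.a k ω i * S.a k ω j * ((cc S.p s t (k + 1) : ℝ) - cc S.p s t k) = _
  by_cases hk : S.p k ≤ cc S.p s t k
  · simp [bb, hk]
  · rw [← cc_triv S.p_mono h (not_le.1 hk)]
    simp

theorem t_SI1 : S_SI1.{u} := by
  intro N Ω mΩ P _ F W hW S s t hst i j
  have hc := cc_mono S.p_mono s t
  have hI : ∀ j, (fun ω => S.int W t ω j - S.int W s ω j) =
      mm W (cc S.p s t) (bb S s t j) S.m := fun j => funext fun ω => int_eq_mm S W hst j ω
  have hI' : ∀ j ω, S.int W t ω j - S.int W s ω j =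
      mm W (cc S.p s t) (bb S s t j) S.m ω := fun j ω => int_eq_mm S W hst j ω
  refine ⟨?_, ?_, ?_⟩
  · simp only [hI']
    exact mm_four_int hW hc (bb_meas S s t j) (bb_le S s t j) S.m
  · simp only [hI']
    refine (tr_four hW hc (bb_meas S s t j) (bb_le S s t j) S.m).trans ?_
    have h1 : (cc S.p s t S.m : ℝ) ≤ t := NNReal.coe_le_coe.2 (cc_le S.p hst _)
    have h2 : (s : ℝ) ≤ cc S.p s t 0 := NNReal.coe_le_coe.2 (cc_ge S.p s t 0)
    have h3 : (cc S.p s t 0 : ℝ) ≤ cc S.p s t S.m := NNReal.coe_le_coe.2 (hc (Nat.zero_le _))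
    have h4 : ((cc S.p s t S.m : ℝ) - cc S.p s t 0) ^ 2 ≤ ((t : ℝ) - s) ^ 2 :=
      pow_le_pow_left₀ (by linarith) (by linarith) 2
    linarith
  · intro A hA
    have hAm : MeasurableSet A := F.le s A hA
    set χ : Ω → ℝ := A.indicator (fun _ => 1) with hχ
    have hχm : Measurable[F s] χ := Measurable.indicator measurable_const hA
    have hχ1 : ∀ ω, |χ ω| ≤ 1 := fun ω => by
      by_cases h : ω ∈ A
      · simp [hχ, h]
      · simp [hχ, h]
    have hset : ∀ f : Ω → ℝ, ∫ ω in A, f ω ∂P = ∫ ω, χ ω * f ω ∂P := by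
      intro f
      rw [← integral_indicator hAm]
      congr 1
      funext ω
      by_cases h : ω ∈ A
      · simp [hχ, h]
      · simp [hχ, h]
    constructor
    · rw [hset]
      simp only [hI']
      exact (tr_mean hW hc (bb_meas S s t j) (bb_le S s t j) (cc_ge S.p s t) hχm hχ1 S.m).2
    · rw [hset, hset]
      simp only [hI', val_int S hst]
      exact (tr_cov hW hc (bb_meas S s t i) (bb_le S s t i) (bb_meas S s t j) (bb_le S s t j)
        (cc_ge S.p s t) hχm hχ1 S.m).2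

end H32.FL
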