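import Pool.Agent.H5.FL.Stm4
import Pool.Agent.H32.FL.GM

/-! Discrete stochastic integrals against a Brownian motion. -/

set_option autoImplicit false

open MeasureTheory ProbabilityTheory Filter Topology
open scoped NNReal ENNReal

universe u

namespace H32.FL

open H5.FL

variable {Ω : Type u} [mΩ : MeasurableSpace Ω] {P : Measure Ω} [IsProbabilityMeasure P]
  {F : Filtration ℝ≥0 mΩ} {W : ℝ≥0 → Ω → ℝ}

theorem inc_law (hW : IsFBM F W P) {s t : ℝ≥0} (h : s ≤ t) :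
    HasLaw (fun ω => W t ω - W s ω) (gaussianReal 0 (t - s)) P := by
  have h1 := hW.1.toIsPreBrownianReal.hasLaw_sub t s
  have e : nndist t.1 s.1 = t - s := by
    apply NNReal.eq
    rw [coe_nndist, Real.dist_eq, NNReal.coe_sub h]
    exact abs_of_nonneg (sub_nonneg.2 (NNReal.coe_le_coe.2 h))
  rw [e] at h1
  exact h1

theorem inc_indep (hW : IsFBM F W P) {s t : ℝ≥0} (h : s ≤ t) {g : Ω → ℝ}
    (hg : Measurable[F s] g) {φ : ℝ → ℝ} (hφ : Measurable φ) :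
    IndepFun g (fun ω => φ (W t ω - W s ω)) P := by
  rw [IndepFun_iff_Indep]
  refine indep_of_indep_of_le_left (indep_of_indep_of_le_right (hW.2.2 s t h).symm ?_) hg.comap_le
  have e : (fun ω => φ (W t ω - W s ω)) = φ ∘ (fun ω => W t ω - W s ω) := rfl
  rw [e, ← MeasurableSpace.comap_comp]
  exact MeasurableSpace.comap_mono hφ.comap_le

theorem inc_meas (hW : IsFBM F W P) (s t : ℝ≥0) : Measurable (fun ω => W t ω - W s ω) :=
  ((hW.2.1 t).mono (F.le t) le_rfl).sub ((hW.2.1 s).mono (F.le s) le_rfl)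

theorem inc_pow (hW : IsFBM F W P) {s t : ℝ≥0} (h : s ≤ t) {g : Ω → ℝ}
    (hg : Measurable[F s] g) (hgi : Integrable g P) (n : ℕ) :
    Integrable (fun ω => g ω * (W t ω - W s ω) ^ n) P ∧
    ∫ ω, g ω * (W t ω - W s ω) ^ n ∂P = (∫ ω, g ω ∂P) * ∫ x, x ^ n ∂(gaussianReal 0 (t - s)) := by
  have hm : Measurable (fun x : ℝ => x ^ n) := measurable_id.pow_const n
  have hind := inc_indep hW h hg hm
  have hlaw := inc_law hW h
  have hΔ := inc_meas hW s t
  have h1 : Integrable (fun ω => (W t ω - W s ω) ^ n) P := by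
    have h2 := gm_int (t - s) n
    rw [← hlaw.map_eq] at h2
    exact (integrable_map_measure hm.aestronglyMeasurable hΔ.aemeasurable).1 h2
  refine ⟨hind.integrable_mul hgi h1, ?_⟩
  rw [hind.integral_fun_mul_eq_mul_integral
    ((hg.mono (F.le s) le_rfl).aestronglyMeasurable) (hm.comp hΔ).aestronglyMeasurable]
  congr 1
  exact hlaw.integral_comp hm.aestronglyMeasurable

/-- discrete stochastic integral -/
noncomputable def mm (W : ℝ≥0 → Ω → ℝ) (c : ℕ → ℝ≥0) (b : ℕ → Ω → ℝ) (n : ℕ) (ω : Ω) : ℝ :=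
  ∑ k ∈ Finset.range n, b k ω * (W (c (k + 1)) ω - W (c k) ω)

theorem mm_succ (W : ℝ≥0 → Ω → ℝ) (c : ℕ → ℝ≥0) (b : ℕ → Ω → ℝ) (n : ℕ) (ω : Ω) :
    mm W c b (n + 1) ω = mm W c b n ω + b n ω * (W (c (n + 1)) ω - W (c n) ω) := by
  unfold mm
  rw [Finset.sum_range_succ]

theorem mm_meas (hW : IsFBM F W P) {c : ℕ → ℝ≥0} (hc : Monotone c) {b : ℕ → Ω → ℝ}
    (hb : ∀ k, Measurable[F (c k)] (b k)) (n : ℕ) : Measurable[F (c n)] (mm W c b n) := by
  induction n with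
  | zero =>
    have : mm W c b 0 = fun _ => 0 := by funext ω; simp [mm]
    rw [this]
    exact measurable_const
  | succ n ih =>
    have e : mm W c b (n + 1) = fun ω => mm W c b n ω + b n ω * (W (c (n + 1)) ω - W (c n) ω) := by
      funext ω; exact mm_succ W c b n ω
    rw [e]
    have h1 := F.mono (hc (Nat.le_succ n))
    exact (ih.mono h1 le_rfl).add (((hb n).mono h1 le_rfl).mul
      ((hW.2.1 (c (n + 1))).sub ((hW.2.1 (c n)).mono h1 le_rfl)))

theorem bdd_int {f g : Ω → ℝ} (hf : Measurable f) (hg : Integrable g P)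
    (h : ∀ ω, |f ω| ≤ g ω) : Integrable f P :=
  hg.mono' hf.aestronglyMeasurable (Eventually.of_forall h)

omit [IsProbabilityMeasure P] in
theorem int_add2 {f g : Ω → ℝ} (hf : Integrable f P) (hg : Integrable g P) :
    ∫ ω, (f ω + g ω) ∂P = ∫ ω, f ω ∂P + ∫ ω, g ω ∂P := integral_add hf hg

omit [IsProbabilityMeasure P] in
theorem int_add4 {f g h k : Ω → ℝ} (hf : Integrable f P) (hg : Integrable g P)
    (hh : Integrable h P) (hk : Integrable k P) :
    Integrable (fun ω => ((f ω + g ω) + h ω) + k ω) P ∧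
    ∫ ω, (((f ω + g ω) + h ω) + k ω) ∂P =
      ((∫ ω, f ω ∂P + ∫ ω, g ω ∂P) + ∫ ω, h ω ∂P) + ∫ ω, k ω ∂P := by
  have h1 : Integrable (fun ω => f ω + g ω) P := hf.add hg
  have h2 : Integrable (fun ω => (f ω + g ω) + h ω) P := h1.add hh
  have h3 : Integrable (fun ω => ((f ω + g ω) + h ω) + k ω) P := h2.add hk
  refine ⟨h3, ?_⟩
  rw [int_add2 h2 hk, int_add2 h1 hh, int_add2 hf hg]

theorem mm_four_int (hW : IsFBM F W P) {c : ℕ → ℝ≥0} (hc : Monotone c) {b : ℕ → Ω → ℝ}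
    (hb : ∀ k, Measurable[F (c k)] (b k)) (hb1 : ∀ k ω, |b k ω| ≤ 1) (n : ℕ) :
    Integrable (fun ω => (mm W c b n ω) ^ 4) P := by
  induction n with
  | zero => simp [mm]
  | succ n ih =>
    have h1 := (inc_pow hW (hc (Nat.le_succ n)) (g := fun _ => 1) measurable_const
      (integrable_const 1) 4).1
    have hmm := (mm_meas hW hc hb (n + 1)).mono (F.le _) le_rfl
    refine bdd_int (g := fun ω => 8 * (mm W c b n ω) ^ 4 +
      8 * (1 * (W (c (n + 1)) ω - W (c n) ω) ^ 4)) (hmm.pow_const 4)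
      ((ih.const_mul 8).add (h1.const_mul 8)) (fun ω => ?_)
    rw [mm_succ, abs_of_nonneg (by positivity)]
    set x := mm W c b n ω
    set d := W (c (n + 1)) ω - W (c n) ω
    have hb2 : (b n ω) ^ 2 ≤ 1 := (sq_le_one_iff_abs_le_one _).2 (hb1 n ω)
    have hb4 : (b n ω) ^ 4 ≤ 1 := by nlinarith [sq_nonneg (b n ω)]
    have h3 : (x + b n ω * d) ^ 4 ≤ 8 * x ^ 4 + 8 * (b n ω * d) ^ 4 := by
      nlinarith [sq_nonneg (x ^ 2 - (b n ω * d) ^ 2), sq_nonneg (x - b n ω * d),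
        sq_nonneg (x + b n ω * d), mul_nonneg (sq_nonneg (x - b n ω * d))
          (sq_nonneg (x + b n ω * d)), sq_nonneg ((x - b n ω * d) ^ 2)]
    have h4 : (b n ω * d) ^ 4 ≤ d ^ 4 := by
      rw [mul_pow]
      nlinarith [sq_nonneg (d ^ 2)]
    linarith

theorem abs_le_four (x : ℝ) : |x| ≤ 1 + x ^ 4 := by
  rw [abs_le]
  constructor <;> nlinarith [sq_nonneg (x ^ 2 - 1), sq_nonneg (x - 1), sq_nonneg (x + 1),
    sq_nonneg (x ^ 2)]

theorem sq_le_four (x : ℝ) : |x ^ 2| ≤ 1 + x ^ 4 := by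
  rw [abs_of_nonneg (sq_nonneg x)]
  nlinarith [sq_nonneg (x ^ 2 - 1), sq_nonneg (x ^ 2)]

theorem cube_le_four (x : ℝ) : |x ^ 3| ≤ 1 + x ^ 4 := by
  have h1 : |x ^ 3| = |x| * x ^ 2 := by
    rw [abs_pow, pow_succ, sq_abs]; ring
  have h2 : |x| ^ 2 = x ^ 2 := sq_abs x
  rw [h1]
  nlinarith [sq_nonneg (x ^ 2 - 1), sq_nonneg (|x| - 1), abs_nonneg x, sq_nonneg (x ^ 2 - |x|)]

variable {c : ℕ → ℝ≥0}

theorem tr_mean (hW : IsFBM F W P) (hc : Monotone c) {b : ℕ → Ω → ℝ}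
    (hb : ∀ k, Measurable[F (c k)] (b k)) (hb1 : ∀ k ω, |b k ω| ≤ 1) {s : ℝ≥0}
    (hs : ∀ k, s ≤ c k) {χ : Ω → ℝ} (hχ : Measurable[F s] χ) (hχ1 : ∀ ω, |χ ω| ≤ 1) (n : ℕ) :
    Integrable (fun ω => χ ω * mm W c b n ω) P ∧ ∫ ω, χ ω * mm W c b n ω ∂P = 0 := by
  induction n with
  | zero => simp [mm]
  | succ n ih =>
    have hg : Measurable[F (c n)] (fun ω => χ ω * b n ω) :=
      (hχ.mono (F.mono (hs n)) le_rfl).mul (hb n)
    have hgi : Integrable (fun ω => χ ω * b n ω) P := by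
      refine bdd_int (g := fun _ => 1) (hg.mono (F.le _) le_rfl) (integrable_const 1) fun ω => ?_
      rw [abs_mul]
      exact mul_le_one₀ (hχ1 ω) (abs_nonneg _) (hb1 n ω)
    obtain ⟨h1, h2⟩ := inc_pow hW (hc (Nat.le_succ n)) hg hgi 1
    rw [(gm_all _).1, mul_zero] at h2
    have e : (fun ω => χ ω * mm W c b (n + 1) ω) = fun ω => χ ω * mm W c b n ω +
        (χ ω * b n ω) * (W (c (n + 1)) ω - W (c n) ω) ^ 1 := by
      funext ω; rw [mm_succ]; ring
    rw [e]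
    refine ⟨ih.1.add h1, ?_⟩
    rw [integral_add ih.1 h1, ih.2]
    have h2' : ∫ ω, (χ ω * b n ω) * (W (c (n + 1)) ω - W (c n) ω) ^ 1 ∂P = 0 := h2
    rw [h2', add_zero]

theorem tr_cov (hW : IsFBM F W P) (hc : Monotone c) {b1 b2 : ℕ → Ω → ℝ}
    (hm1 : ∀ k, Measurable[F (c k)] (b1 k)) (hl1 : ∀ k ω, |b1 k ω| ≤ 1)
    (hm2 : ∀ k, Measurable[F (c k)] (b2 k)) (hl2 : ∀ k ω, |b2 k ω| ≤ 1) {s : ℝ≥0}
    (hs : ∀ k, s ≤ c k) {χ : Ω → ℝ} (hχ : Measurable[F s] χ) (hχ1 : ∀ ω, |χ ω| ≤ 1) (n : ℕ) :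
    Integrable (fun ω => χ ω * (mm W c b1 n ω * mm W c b2 n ω)) P ∧
    ∫ ω, χ ω * (mm W c b1 n ω * mm W c b2 n ω) ∂P =
      ∫ ω, χ ω * ∑ k ∈ Finset.range n, b1 k ω * b2 k ω * ((c (k + 1) : ℝ) - c k) ∂P := by
  induction n with
  | zero => simp [mm]
  | succ n ih =>
    have hχn : Measurable[F (c n)] χ := hχ.mono (F.mono (hs n)) le_rfl
    have mm1 := mm_meas hW hc hm1 n
    have mm2 := mm_meas hW hc hm2 n
    have i4 : ∀ {b : ℕ → Ω → ℝ}, (∀ k, Measurable[F (c k)] (b k)) → (∀ k ω, |b k ω| ≤ 1) →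
        Integrable (fun ω => 1 + (mm W c b n ω) ^ 4) P := fun h1 h2 =>
      (integrable_const 1).add (mm_four_int hW hc h1 h2 n)
    have hgA : Measurable[F (c n)] (fun ω => χ ω * mm W c b1 n ω * b2 n ω) :=
      (hχn.mul mm1).mul (hm2 n)
    have hgB : Measurable[F (c n)] (fun ω => χ ω * mm W c b2 n ω * b1 n ω) :=
      (hχn.mul mm2).mul (hm1 n)
    have hgC : Measurable[F (c n)] (fun ω => χ ω * b1 n ω * b2 n ω) :=
      (hχn.mul (hm1 n)).mul (hm2 n)
    have hAi : Integrable (fun ω => χ ω * mm W c b1 n ω * b2 n ω) P := by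
      refine bdd_int (hgA.mono (F.le _) le_rfl) (i4 hm1 hl1) fun ω => ?_
      refine le_trans ?_ (abs_le_four (mm W c b1 n ω))
      rw [abs_mul, abs_mul]
      have h1 := hχ1 ω
      have h2 := hl2 n ω
      have h3 := abs_nonneg (mm W c b1 n ω)
      have h4 : |χ ω| * |mm W c b1 n ω| ≤ |mm W c b1 n ω| := by nlinarith
      have h5 : 0 ≤ |χ ω| * |mm W c b1 n ω| := by positivity
      nlinarith [abs_nonneg (b2 n ω)]
    have hBi : Integrable (fun ω => χ ω * mm W c b2 n ω * b1 n ω) P := by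
      refine bdd_int (hgB.mono (F.le _) le_rfl) (i4 hm2 hl2) fun ω => ?_
      refine le_trans ?_ (abs_le_four (mm W c b2 n ω))
      rw [abs_mul, abs_mul]
      have h1 := hχ1 ω
      have h2 := hl1 n ω
      have h3 := abs_nonneg (mm W c b2 n ω)
      have h4 : |χ ω| * |mm W c b2 n ω| ≤ |mm W c b2 n ω| := by nlinarith
      have h5 : 0 ≤ |χ ω| * |mm W c b2 n ω| := by positivity
      nlinarith [abs_nonneg (b1 n ω)]
    have hCi : Integrable (fun ω => χ ω * b1 n ω * b2 n ω) P := by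
      refine bdd_int (g := fun _ => 1) (hgC.mono (F.le _) le_rfl) (integrable_const 1) fun ω => ?_
      rw [abs_mul, abs_mul]
      exact mul_le_one₀ (mul_le_one₀ (hχ1 ω) (abs_nonneg _) (hl1 n ω)) (abs_nonneg _) (hl2 n ω)
    have hle := hc (Nat.le_succ n)
    obtain ⟨A1, A2⟩ := inc_pow hW hle hgA hAi 1
    obtain ⟨B1, B2⟩ := inc_pow hW hle hgB hBi 1
    obtain ⟨C1, C2⟩ := inc_pow hW hle hgC hCi 2
    rw [(gm_all _).1, mul_zero] at A2 B2
    rw [(gm_all _).2.1] at C2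
    simp only [Nat.succ_eq_add_one] at A1 A2 B1 B2 C1 C2 hle
    have e : (fun ω => χ ω * (mm W c b1 (n + 1) ω * mm W c b2 (n + 1) ω)) = fun ω =>
        ((χ ω * (mm W c b1 n ω * mm W c b2 n ω) +
        (χ ω * mm W c b1 n ω * b2 n ω) * (W (c (n + 1)) ω - W (c n) ω) ^ 1) +
        (χ ω * mm W c b2 n ω * b1 n ω) * (W (c (n + 1)) ω - W (c n) ω) ^ 1) +
        (χ ω * b1 n ω * b2 n ω) * (W (c (n + 1)) ω - W (c n) ω) ^ 2 := by
      funext ω; rw [mm_succ, mm_succ]; ring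
    have hE := int_add4 ih.1 A1 B1 C1
    beta_reduce at hE
    refine ⟨by rw [e]; exact hE.1, ?_⟩
    have hsumi : Integrable (fun ω => χ ω * ∑ k ∈ Finset.range n,
        b1 k ω * b2 k ω * ((c (k + 1) : ℝ) - c k)) P := by
      have h1 : ∀ k, Integrable (fun ω => χ ω * (b1 k ω * b2 k ω * ((c (k + 1) : ℝ) - c k))) P := by
        intro k
        have hmk : Measurable (fun ω => χ ω * (b1 k ω * b2 k ω * ((c (k + 1) : ℝ) - c k))) :=
          (hχ.mono (F.le _) le_rfl).mul ((((hm1 k).mono (F.le _) le_rfl).mul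
            ((hm2 k).mono (F.le _) le_rfl)).mul_const _)
        refine bdd_int (g := fun _ => |(c (k + 1) : ℝ) - c k|) hmk (integrable_const _) fun ω => ?_
        rw [abs_mul, abs_mul, abs_mul, ← mul_assoc]
        have h5 : |χ ω| * (|b1 k ω| * |b2 k ω|) ≤ 1 :=
          mul_le_one₀ (hχ1 ω) (by positivity) (mul_le_one₀ (hl1 k ω) (abs_nonneg _) (hl2 k ω))
        exact mul_le_of_le_one_left (abs_nonneg _) h5
      have h2 : (fun ω => χ ω * ∑ k ∈ Finset.range n,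
          b1 k ω * b2 k ω * ((c (k + 1) : ℝ) - c k)) = fun ω => ∑ k ∈ Finset.range n,
          χ ω * (b1 k ω * b2 k ω * ((c (k + 1) : ℝ) - c k)) := by
        funext ω; rw [Finset.mul_sum]
      rw [h2]
      exact integrable_finsetSum _ fun k _ => h1 k
    have hCc : Integrable (fun ω => (χ ω * b1 n ω * b2 n ω) * ((c (n + 1) : ℝ) - c n)) P :=
      hCi.mul_const _
    have e2 : (fun ω => χ ω * ∑ k ∈ Finset.range (n + 1),
        b1 k ω * b2 k ω * ((c (k + 1) : ℝ) - c k)) = fun ω => χ ω * ∑ k ∈ Finset.range n,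
        b1 k ω * b2 k ω * ((c (k + 1) : ℝ) - c k) +
        (χ ω * b1 n ω * b2 n ω) * ((c (n + 1) : ℝ) - c n) := by
      funext ω; rw [Finset.sum_range_succ]; ring
    rw [e, e2, hE.2, int_add2 hsumi hCc, ih.2, A2, B2, C2, integral_mul_const, NNReal.coe_sub hle]
    ring

theorem tr_four (hW : IsFBM F W P) (hc : Monotone c) {b : ℕ → Ω → ℝ}
    (hb : ∀ k, Measurable[F (c k)] (b k)) (hb1 : ∀ k ω, |b k ω| ≤ 1) (n : ℕ) :
    ∫ ω, (mm W c b n ω) ^ 4 ∂P ≤ 3 * ((c n : ℝ) - c 0) ^ 2 := by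
  -- second moment
  have hsec : ∀ n, ∫ ω, (mm W c b n ω) ^ 2 ∂P ≤ (c n : ℝ) - c 0 := by
    intro n
    have h1 := (tr_cov hW hc hb hb1 hb hb1 (s := c 0) (fun k => hc (Nat.zero_le k))
      (χ := fun _ => 1) measurable_const (by simp) n).2
    simp only [one_mul] at h1
    have e : (fun ω => (mm W c b n ω) ^ 2) = fun ω => mm W c b n ω * mm W c b n ω := by
      funext ω; ring
    rw [e, h1]
    have h2 : ∀ ω, ∑ k ∈ Finset.range n, b k ω * b k ω * ((c (k + 1) : ℝ) - c k) ≤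
        (c n : ℝ) - c 0 := by
      intro ω
      rw [← Finset.sum_range_sub (fun k => (c k : ℝ)) n]
      refine Finset.sum_le_sum fun k _ => ?_
      have h3 : 0 ≤ (c (k + 1) : ℝ) - c k := sub_nonneg.2 (NNReal.coe_le_coe.2 (hc (Nat.le_succ k)))
      have h4 : b k ω * b k ω ≤ 1 := by
        have := (sq_le_one_iff_abs_le_one _).2 (hb1 k ω)
        nlinarith
      nlinarith
    have h5 : ∫ ω, ∑ k ∈ Finset.range n, b k ω * b k ω * ((c (k + 1) : ℝ) - c k) ∂P ≤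
        ∫ _ω, ((c n : ℝ) - c 0) ∂P := by
      refine integral_mono_of_nonneg (Eventually.of_forall fun ω => ?_) (integrable_const _)
        (Eventually.of_forall h2)
      refine Finset.sum_nonneg fun k _ => ?_
      have h3 : 0 ≤ (c (k + 1) : ℝ) - c k := sub_nonneg.2 (NNReal.coe_le_coe.2 (hc (Nat.le_succ k)))
      exact mul_nonneg (mul_self_nonneg _) h3
    refine h5.trans ?_
    simp
  induction n with
  | zero => simp [mm]
  | succ n ih =>
    have hmn := mm_meas hW hc hb n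
    have h4i := mm_four_int hW hc hb hb1 n
    have hgi : Integrable (fun ω => 1 + (mm W c b n ω) ^ 4) P := (integrable_const 1).add h4i
    have hg3 : Measurable[F (c n)] (fun ω => (mm W c b n ω) ^ 3 * b n ω) := (hmn.pow_const 3).mul (hb n)
    have hg2 : Measurable[F (c n)] (fun ω => (mm W c b n ω) ^ 2 * (b n ω) ^ 2) :=
      (hmn.pow_const 2).mul ((hb n).pow_const 2)
    have hg1 : Measurable[F (c n)] (fun ω => mm W c b n ω * (b n ω) ^ 3) :=
      hmn.mul ((hb n).pow_const 3)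
    have hg0 : Measurable[F (c n)] (fun ω => (b n ω) ^ 4) := (hb n).pow_const 4
    have hbp : ∀ (k : ℕ) ω, |(b n ω) ^ k| ≤ 1 := fun k ω => by
      rw [abs_pow]; exact pow_le_one₀ (abs_nonneg _) (hb1 n ω)
    have key : ∀ x y : ℝ, |y| ≤ 1 → |x * y| ≤ |x| := fun x y hy => by
      rw [abs_mul]; exact mul_le_of_le_one_right (abs_nonneg _) hy
    have i3 : Integrable (fun ω => (mm W c b n ω) ^ 3 * b n ω) P :=
      bdd_int (hg3.mono (F.le _) le_rfl) hgi fun ω => (key _ _ (hb1 n ω)).trans (cube_le_four _)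
    have i2 : Integrable (fun ω => (mm W c b n ω) ^ 2 * (b n ω) ^ 2) P :=
      bdd_int (hg2.mono (F.le _) le_rfl) hgi fun ω => (key _ _ (hbp 2 ω)).trans (sq_le_four _)
    have i1 : Integrable (fun ω => mm W c b n ω * (b n ω) ^ 3) P :=
      bdd_int (hg1.mono (F.le _) le_rfl) hgi fun ω => (key _ _ (hbp 3 ω)).trans (abs_le_four _)
    have i0 : Integrable (fun ω => (b n ω) ^ 4) P :=
      bdd_int (g := fun _ => 1) (hg0.mono (F.le _) le_rfl) (integrable_const 1) fun ω => hbp 4 ω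
    have hle := hc (Nat.le_succ n)
    obtain ⟨A1, A2⟩ := inc_pow hW hle hg3 i3 1
    obtain ⟨B1, B2⟩ := inc_pow hW hle hg2 i2 2
    obtain ⟨C1, C2⟩ := inc_pow hW hle hg1 i1 3
    obtain ⟨D1, D2⟩ := inc_pow hW hle hg0 i0 4
    rw [(gm_all _).1, mul_zero] at A2
    rw [(gm_all _).2.1] at B2
    rw [(gm_all _).2.2.1, mul_zero] at C2
    rw [(gm_all _).2.2.2] at D2
    simp only [Nat.succ_eq_add_one] at A1 A2 B1 B2 C1 C2 D1 D2 hle
    have e : (fun ω => (mm W c b (n + 1) ω) ^ 4) = fun ω =>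
        ((((mm W c b n ω) ^ 4 +
        4 * (((mm W c b n ω) ^ 3 * b n ω) * (W (c (n + 1)) ω - W (c n) ω) ^ 1)) +
        6 * (((mm W c b n ω) ^ 2 * (b n ω) ^ 2) * (W (c (n + 1)) ω - W (c n) ω) ^ 2)) +
        4 * ((mm W c b n ω * (b n ω) ^ 3) * (W (c (n + 1)) ω - W (c n) ω) ^ 3)) +
        (b n ω) ^ 4 * (W (c (n + 1)) ω - W (c n) ω) ^ 4 := by
      funext ω; rw [mm_succ]; ring
    have J := int_add4 h4i (A1.const_mul 4) (B1.const_mul 6) (C1.const_mul 4)
    beta_reduce at J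
    rw [e, int_add2 J.1 D1, J.2, integral_const_mul, integral_const_mul,
      integral_const_mul, A2, B2, C2, D2, NNReal.coe_sub hle]
    set v : ℝ := (c (n + 1) : ℝ) - c n with hv
    have hv0 : 0 ≤ v := sub_nonneg.2 (NNReal.coe_le_coe.2 hle)
    have q2 : ∫ ω, (mm W c b n ω) ^ 2 * (b n ω) ^ 2 ∂P ≤ (c n : ℝ) - c 0 := by
      refine le_trans ?_ (hsec n)
      have hm2i : Integrable (fun ω => (mm W c b n ω) ^ 2) P :=
        bdd_int ((hmn.pow_const 2).mono (F.le _) le_rfl) hgi fun ω => sq_le_four _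
      refine integral_mono i2 hm2i fun ω => ?_
      have := (abs_le.1 (hbp 2 ω)).2
      exact mul_le_of_le_one_right (sq_nonneg _) this
    have q0 : ∫ ω, (b n ω) ^ 4 ∂P ≤ 1 := by
      have : ∫ ω, (b n ω) ^ 4 ∂P ≤ ∫ _ω, (1 : ℝ) ∂P :=
        integral_mono i0 (integrable_const 1) fun ω => (abs_le.1 (hbp 4 ω)).2
      simpa using this
    have hx0 : 0 ≤ (c n : ℝ) - c 0 := sub_nonneg.2 (NNReal.coe_le_coe.2 (hc (Nat.zero_le n)))
    have e3 : (c (n + 1) : ℝ) - c 0 = ((c n : ℝ) - c 0) + v := by rw [hv]; ring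
    rw [e3]
    nlinarith [mul_le_mul_of_nonneg_right q2 hv0, mul_le_mul_of_nonneg_right q0 (sq_nonneg v)]

end H32.FL
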