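import Pool.Agent.H5.FL.Stm4
import Pool.Agent.H78.FL.CLK

/-! Part WGT of crew FL: bounded weights. -/

set_option autoImplicit false

open MeasureTheory ProbabilityTheory Filter Topology
open scoped NNReal ENNReal

universe u

namespace H32.FL

open H5.FL

/-- equality of the integrals over the sets of `m` gives equality with bounded `m`-measurable
weights -/
theorem weight {Ω : Type u} {m mΩ : MeasurableSpace Ω} {P : Measure Ω} [IsProbabilityMeasure P]
    (hm : m ≤ mΩ) {X Y : Ω → ℝ} (hX : Integrable X P) (hY : Integrable Y P)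
    (h : ∀ A, MeasurableSet[m] A → ∫ ω in A, X ω ∂P = ∫ ω in A, Y ω ∂P)
    {g : Ω → ℝ} (hg : Measurable[m] g) {K : ℝ} (hK : ∀ ω, |g ω| ≤ K) :
    ∫ ω, g ω * X ω ∂P = ∫ ω, g ω * Y ω ∂P := by
  have h0 : (fun _ => (0 : ℝ)) =ᵐ[P] P[X - Y | m] := by
    refine ae_eq_condExp_of_forall_setIntegral_eq hm (hX.sub hY)
      (fun _ _ _ => integrableOn_zero) (fun A hA _ => ?_)
      (stronglyMeasurable_const.aestronglyMeasurable)
    have h1 := h A hA
    have h2 : ∫ ω in A, (X - Y) ω ∂P = ∫ ω in A, X ω ∂P - ∫ ω in A, Y ω ∂P :=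
      integral_sub hX.integrableOn hY.integrableOn
    rw [h2, h1]; simp
  have hgb : ∀ {Z : Ω → ℝ}, Integrable Z P → Integrable (fun ω => g ω * Z ω) P := fun hZ =>
    hZ.bdd_mul (c := K) (hg.mono hm le_rfl).aestronglyMeasurable
      (Eventually.of_forall hK)
  have h3 : ∫ ω, (g * (X - Y)) ω ∂P = 0 := by
    have h4 : P[g * (X - Y) | m] =ᵐ[P] g * P[X - Y | m] :=
      condExp_mul_of_stronglyMeasurable_left hg.stronglyMeasurable
        (hgb (hX.sub hY)) (hX.sub hY)
    rw [← integral_condExp hm, integral_congr_ae h4]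
    have h5 : g * P[X - Y | m] =ᵐ[P] fun _ => 0 := by
      filter_upwards [h0] with ω hω
      rw [Pi.mul_apply, ← hω, mul_zero]
    rw [integral_congr_ae h5]; simp
  have h6 : ∫ ω, (g * (X - Y)) ω ∂P = ∫ ω, g ω * X ω ∂P - ∫ ω, g ω * Y ω ∂P := by
    rw [← integral_sub (hgb hX) (hgb hY)]
    congr 1
    funext ω
    simp only [Pi.mul_apply, Pi.sub_apply]; ring
  rw [h6] at h3
  linarith

theorem clock_int {N : ℕ} {Ω : Type u} [mΩ : MeasurableSpace Ω] {P : Measure Ω}
    [IsProbabilityMeasure P] {F : Filtration ℝ≥0 mΩ} {J : ℝ≥0 → Ω → Fin N} (hJ : IsProgressive F J)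
    (t : ℝ≥0) (j : Fin N) : Integrable (fun ω => clock J t ω j) P := by
  have h1 : Measurable[F t] (clock J t) := H78.FL.clock_measurable (F t) J t (hJ t)
  have h2 : Measurable (fun ω => clock J t ω j) :=
    (measurable_pi_apply j).comp (h1.mono (F.le t) le_rfl)
  refine (integrable_const (t : ℝ)).mono' h2.aestronglyMeasurable
    (Eventually.of_forall fun ω => ?_)
  unfold clock
  have h3 := intervalIntegral.norm_integral_le_of_norm_le_const (a := (0 : ℝ)) (b := t) (C := 1)
    (f := fun s : ℝ => if J s.toNNReal ω = j then (1 : ℝ) else 0) (fun s _ => by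
      split_ifs <;> simp)
  refine h3.trans ?_
  rw [sub_zero, abs_of_nonneg (NNReal.coe_nonneg t), one_mul]

theorem t_WGT (hIT2 : S_IT2.{u}) : S_WGT.{u} := by
  intro N Ω mΩ P _ F W hW J M hJ hMm hM s t hst i j g K hg hK
  obtain ⟨-, -, hA⟩ := hIT2 N Ω P F W hW J M hJ hMm hM s t hst i j
  have hL : ∀ j, MemLp (fun ω => M t ω j - M s ω j) 2 P := fun j =>
    (hM.1 t j).sub (hM.1 s j)
  have hX : Integrable (fun ω => M t ω j - M s ω j) P := (hL j).integrable (by norm_num)
  have hXX : Integrable (fun ω => (M t ω i - M s ω i) * (M t ω j - M s ω j)) P :=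
    (hL i).integrable_mul (hL j)
  constructor
  · have h1 := weight (F.le s) hX (integrable_zero Ω ℝ P) (fun A hAm => by
      rw [(hA A hAm).1]; simp) hg hK
    rw [h1]; simp
  · refine weight (F.le s) hXX ?_ (fun A hAm => (hA A hAm).2) hg hK
    by_cases hij : i = j
    · simp only [hij, if_true]
      exact (clock_int hJ t j).sub (clock_int hJ s j)
    · simp only [hij, if_false]
      exact integrable_zero Ω ℝ P

end H32.FL
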